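import Pool.Agent.H464Z.R8Main

/-!
Under GRH the uniform ratios conjecture for the family `χ_{8d}` fails.  At the shifts produced no
`L`-value in a denominator vanishes, no zeta value is taken at the pole, no gamma value at a pole,
and both Euler products converge.
-/

namespace Pool.Agent.Results.MP_d2a082_nt.ARatiosChi8False

open Pool.Agent.H464Z.R8

theorem result (hGRH : GRH) :
    ∃ w : SchwartzMap ℝ ℝ, (∀ x, 0 ≤ w x) ∧ (∀ x, w (-x) = w x) ∧ w ≠ 0 ∧ HasCompactSupport w ∧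
      ∀ ε : ℝ, 0 < ε → ε ≤ 1 / 100 → ∀ c : ℝ, 0 < c → ∀ C : ℝ, 0 < C → ∀ K X₀ : ℝ,
        ∃ X : ℝ, X₀ ≤ X ∧ 2 ≤ X ∧ 0 < Wst w X ∧ ∃ α γ : ℂ,
          α.re = -1 / 5 ∧ γ.re = 1 / 5 ∧ c / Real.log X ≤ γ.re ∧
          |α.im| ≤ C * X ^ (1 - ε) ∧ |γ.im| ≤ C * X ^ (1 - ε) ∧
          α + γ ≠ 0 ∧ (∀ d : Dset, L8 d (1 / 2 + γ) ≠ 0) ∧
          Multipliable (Afac α γ) ∧ Multipliable (Afac (-α) γ) ∧
          K * X ^ (-1 / 2 + ε) < ‖Err w X α γ‖ := by
  let b : ContDiffBump (0 : ℝ) := ⟨99 / 100, 1, by norm_num, by norm_num⟩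
  let w : SchwartzMap ℝ ℝ := b.hasCompactSupport.toSchwartzMap b.contDiff
  have hw : Wt w := ⟨fun x => b.nonneg, fun x => b.le_one, fun x => b.neg x,
    fun x hx => b.one_of_mem_closedBall (by simpa using hx),
    fun x hx => b.zero_of_le_dist (by simpa using hx)⟩
  refine ⟨w, hw.1, hw.2.2.1, fun h => ?_, b.hasCompactSupport, fun ε hε0 hε c hc C hC K X₀ => ?_⟩
  · have := hw.2.2.2.1 0 (by norm_num)
    rw [h] at this
    simp at this
  obtain ⟨Q₀, hQ₀⟩ := core hGRH hw (abs_nonneg K)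
  obtain ⟨q, hq1, hq⟩ := Nat.exists_infinite_primes
    ⌈|Q₀| + Real.exp (5 * c) + 137 / C + |X₀| + 4⌉₊
  have hq2 := Nat.ceil_le.1 hq1
  have e1 := abs_nonneg Q₀
  have e2 := Real.exp_pos (5 * c)
  have e3 : 0 < 137 / C := by positivity
  have e4 := abs_nonneg X₀
  obtain ⟨a, ha, hi, hE⟩ := hQ₀ q hq (by linarith [le_abs_self Q₀])
  generalize (q : ℝ) = Q at *
  have hQ0 : 0 < Q := by linarith
  have hQ1 : 1 ≤ Q := by linarith
  have p1 : Q ≤ Q ^ 100 := le_self_pow₀ hQ1 (by norm_num)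
  have p2 : 1 ≤ Q ^ 98 := one_le_pow₀ hQ1
  obtain ⟨X, hX, hXE⟩ : ∃ X : ℝ, Q ^ 100 ≤ X ∧ |K| / Q ^ 49 < ‖Err w X (-a) (a + zz)‖ := by
    rcases hE with h | h
    · exact ⟨_, by linarith, h⟩
    · exact ⟨_, by linarith, h⟩
  have hX1 : 1 ≤ X := by linarith
  have hγ : (a + zz).re = 1 / 5 := by rw [Complex.add_re, zz_re, ha, add_zero]
  have r1 : 137 * Q ^ 98 ≤ C * X ^ (1 - ε) := by
    have b1 : Q ^ 99 ≤ X ^ (1 - ε) := by
      calc Q ^ 99 = (Q ^ 100) ^ (99 / 100 : ℝ) := by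
            rw [← Real.rpow_natCast, ← Real.rpow_natCast, ← Real.rpow_mul hQ0.le]; norm_num
        _ ≤ X ^ (99 / 100 : ℝ) := by gcongr
        _ ≤ _ := Real.rpow_le_rpow_of_exponent_le hX1 (by linarith)
    have b2 : 137 ≤ C * Q := by
      rw [mul_comm, ← div_le_iff₀ hC]
      linarith
    calc 137 * Q ^ 98 ≤ C * Q * Q ^ 98 := by gcongr
      _ = C * Q ^ 99 := by ring
      _ ≤ _ := by gcongr
  have r2 : X ^ (-1 / 2 + ε) ≤ 1 / Q ^ 49 := by
    calc X ^ (-1 / 2 + ε) ≤ X ^ (-(49 / 100) : ℝ) :=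
          Real.rpow_le_rpow_of_exponent_le hX1 (by linarith)
      _ ≤ (Q ^ 100) ^ (-(49 / 100) : ℝ) :=
          Real.rpow_le_rpow_of_nonpos (by positivity) hX (by norm_num)
      _ = 1 / Q ^ 49 := by
          rw [one_div, ← Real.rpow_natCast, ← Real.rpow_natCast, ← Real.rpow_mul hQ0.le,
            ← Real.rpow_neg hQ0.le]
          norm_num
  refine ⟨X, by linarith [le_abs_self X₀], by linarith,
    lt_of_lt_of_le (by linarith) (le_Wst hw (by linarith)), -a, a + zz,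
    by rw [Complex.neg_re, ha]; norm_num, hγ, ?_, ?_, ?_, by simpa using zz_ne,
    fun d => L_ne hGRH (chi8_ne_one d) (by rw [Complex.add_re, hγ]; norm_num),
    Afac_mult (by simp [zz_re]) (by rw [Complex.neg_re, ha]; norm_num),
    Afac_mult (by rw [neg_neg, Complex.add_re, hγ, ha]; norm_num) (by rw [neg_neg, ha]; norm_num),
    ?_⟩
  · have b1 : 5 * c ≤ Real.log X := by
      rw [Real.le_log_iff_exp_le (by linarith)]
      linarith
    rw [hγ, div_le_iff₀ (by linarith)]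
    linarith
  · rw [Complex.neg_im, abs_neg]
    linarith
  · have := abs_add_le a.im zz.im
    have := zz_im
    rw [Complex.add_im]
    linarith
  · refine lt_of_le_of_lt ?_ hXE
    calc K * X ^ (-1 / 2 + ε) ≤ |K| * (1 / Q ^ 49) :=
          mul_le_mul (le_abs_self K) r2 (by positivity) (abs_nonneg K)
      _ = _ := by ring

end Pool.Agent.Results.MP_d2a082_nt.ARatiosChi8False
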